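import Pool.Agent.Helper44.TOT.Defs

/-! TOT-P2 ParamP (helper78) -/

set_option autoImplicit false

namespace Pool.Agent.Helper78.TOT

open Pool.Agent.Helper44.TOT Filter

theorem log_le_eventually (c : ℝ) (hc : 0 < c) : ∀ᶠ x : ℝ in atTop, Real.log x ≤ c * x := by
  have h := Real.isLittleO_log_id_atTop.bound hc
  filter_upwards [h, eventually_ge_atTop (1 : ℝ)] with x hx hx1
  have h1 : ‖Real.log x‖ = Real.log x := by
    rw [Real.norm_eq_abs, abs_of_nonneg (Real.log_nonneg hx1)]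
  have h2 : ‖(id x : ℝ)‖ = x := by
    rw [id, Real.norm_eq_abs, abs_of_nonneg (by linarith)]
  rwa [h1, h2] at hx

theorem paramP : ParamP := by
  intro a C0 ρ ι C6 hcst hC6
  obtain ⟨ha, hC0, hρ, hι, hι'⟩ := hcst
  have ha' : (2 : ℝ) ≤ a := by exact_mod_cast ha
  obtain ⟨K, hK⟩ : ∃ K : ℝ, K = 2 * (a : ℝ) + 3 := ⟨_, rfl⟩
  have hK7 : 7 ≤ K := by rw [hK]; linarith
  have hρK : 0 < ρ * K := by positivity
  have ev : ∀ᶠ N0 : ℝ in atTop, 40 ≤ N0 ∧ 800 * a * 4 ^ a * (2 + C6) ≤ N0 ∧ 200 * ρ ≤ N0 ∧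
      8 * K * ρ ≤ N0 ∧ 16 * ρ * K / ι ≤ N0 ∧ Real.log N0 ≤ (ι / (4 * (ρ * K))) * N0 ∧
      Real.log N0 ≤ (1 / (100 * (ρ * K))) * N0 ∧ 2 * (ρ * K) ≤ N0 := by
    filter_upwards [eventually_ge_atTop (40 : ℝ), eventually_ge_atTop (800 * a * 4 ^ a * (2 + C6)),
      eventually_ge_atTop (200 * ρ), eventually_ge_atTop (8 * K * ρ),
      eventually_ge_atTop (16 * ρ * K / ι), log_le_eventually (ι / (4 * (ρ * K))) (by positivity),
      log_le_eventually (1 / (100 * (ρ * K))) (by positivity), eventually_ge_atTop (2 * (ρ * K))]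
      with N0 h1 h2 h3 h4 h5 h6 h7 h8
    exact ⟨h1, h2, h3, h4, h5, h6, h7, h8⟩
  obtain ⟨N0, h1, h2, h3, h4, h5, h6, h7, h8⟩ := ev.exists
  have hN0 : 0 < N0 := by linarith
  obtain ⟨ε, hε⟩ : ∃ ε : ℝ, ε = 2 * ρ / N0 := ⟨_, rfl⟩
  have hε0 : 0 < ε := by rw [hε]; positivity
  have hεN : ε * N0 = 2 * ρ := by rw [hε]; field_simp
  have hlogN : 0 ≤ Real.log N0 := Real.log_nonneg (by linarith)
  -- basic consequences
  have e1 : ε ≤ 1 / 100 := by
    rw [hε, div_le_div_iff₀ hN0 (by norm_num)]; linarith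
  have e2 : 4 * K * ε ≤ 1 := by
    have : 4 * K * ε = 8 * K * ρ / N0 := by rw [hε]; ring
    rw [this, div_le_one hN0]; exact h4
  have e3 : 2 * ε * K ≤ ι / 4 := by
    have h5' : 16 * ρ * K ≤ N0 * ι := by rwa [div_le_iff₀ hι] at h5
    have : 2 * ε * K = 4 * ρ * K / N0 := by rw [hε]; ring
    rw [this, div_le_div_iff₀ hN0 (by norm_num)]
    linarith
  have e4 : ε * K * Real.log N0 ≤ ι / 2 := by
    have : ε * K * Real.log N0 ≤ ε * K * ((ι / (4 * (ρ * K))) * N0) :=
      mul_le_mul_of_nonneg_left h6 (by positivity)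
    refine this.trans (le_of_eq ?_)
    have hρ0 : ρ ≠ 0 := by linarith
    have hK0 : K ≠ 0 := by linarith
    rw [hε]; field_simp; ring
  have e5 : ρ * K * Real.log N0 ≤ N0 / 100 := by
    have : ρ * K * Real.log N0 ≤ ρ * K * ((1 / (100 * (ρ * K))) * N0) :=
      mul_le_mul_of_nonneg_left h7 (by positivity)
    refine this.trans (le_of_eq ?_)
    have hρ0 : ρ ≠ 0 := by linarith
    have hK0 : K ≠ 0 := by linarith
    field_simp
  have e6 : 2 * K * ε * Real.log N0 ≤ 1 / 25 := by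
    have h9 : 2 * K * ε * Real.log N0 = 4 * (ρ * K * Real.log N0) / N0 := by rw [hε]; ring
    rw [h9, div_le_div_iff₀ hN0 (by norm_num)]; linarith
  have hlog : ∀ t : ℝ, 0 ≤ t → Real.log (NN N0 ε t) = Real.log N0 + 2 * Real.log (1 + ε * t) := by
    intro t ht
    have : 0 < 1 + ε * t := by positivity
    unfold NN
    rw [Real.log_mul hN0.ne' (by positivity), Real.log_pow]
    push_cast; ring
  have hlog1 : ∀ t : ℝ, 0 ≤ t → Real.log (1 + ε * t) ≤ ε * t := by
    intro t ht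
    have : 0 < 1 + ε * t := by positivity
    have := Real.log_le_sub_one_of_pos this
    linarith
  refine ⟨N0, ε, ⟨by linarith, hε, e1, ?_, ?_, ?_, ?_, ?_, ?_⟩⟩
  · rw [← hK]; linarith [mul_pos (by linarith : (0:ℝ) < K) hε0]
  · -- lag1
    intro t ht
    rw [← hK, hlog t ht]
    have h9 := hlog1 t ht
    have hεt : 0 ≤ ε * t := by positivity
    have h10 : ε * K * (2 * Real.log (1 + ε * t)) ≤ ε * K * (2 * (ε * t)) :=
      mul_le_mul_of_nonneg_left (by linarith) (by positivity)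
    have h11 : 2 * ε * K * (ε * t) ≤ ι / 4 * (ε * t) := mul_le_mul_of_nonneg_right e3 hεt
    have h12 : 0 ≤ ι / 4 * (ε * t) := by positivity
    linarith
  · -- near
    intro t ht htK
    rw [← hK] at htK ⊢
    rw [hlog t ht] at htK ⊢
    have h9 := hlog1 t ht
    have hK0 : 0 < K := by linarith
    have h10 : K * (2 * Real.log (1 + ε * t)) ≤ K * (2 * (ε * t)) :=
      mul_le_mul_of_nonneg_left (by linarith) hK0.le
    have h11 : 4 * K * ε * t ≤ 1 * t := mul_le_mul_of_nonneg_right e2 ht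
    have h12 : t ≤ 2 * K * Real.log N0 := by linarith
    have h13 : ε * t ≤ 1 / 25 := by
      calc ε * t ≤ ε * (2 * K * Real.log N0) := mul_le_mul_of_nonneg_left h12 hε0.le
        _ = 2 * K * ε * Real.log N0 := by ring
        _ ≤ _ := e6
    have hεt : 0 ≤ ε * t := by positivity
    have h14 : NN N0 ε t ≤ 11 / 10 * N0 := by
      unfold NN
      have h16 : (1 + ε * t) ^ 2 ≤ (26 / 25) ^ 2 :=
        pow_le_pow_left₀ (by linarith) (by linarith) 2
      have h17 : N0 * (1 + ε * t) ^ 2 ≤ N0 * (26 / 25) ^ 2 := mul_le_mul_of_nonneg_left h16 hN0.le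
      linarith
    have h15 : ρ * (K * (Real.log N0 + 2 * Real.log (1 + ε * t))) ≤ N0 / 100 + N0 / 2 := by
      have : ρ * K * (2 * Real.log (1 + ε * t)) ≤ ρ * K * 1 :=
        mul_le_mul_of_nonneg_left (by linarith) hρK.le
      linarith
    linarith
  · -- lag2
    intro B hB
    have hlogB : 0 ≤ Real.log B := Real.log_nonneg hB
    obtain ⟨T, hT⟩ : ∃ T : ℝ, T = 4 * K * (Real.log N0 + Real.log B) / ι + 1 := ⟨_, rfl⟩
    have hT0 : 0 ≤ 4 * K * (Real.log N0 + Real.log B) / ι := by positivity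
    refine ⟨T, by linarith, fun t htT => ?_⟩
    have ht : 0 ≤ t := by linarith
    have hNN : 0 < NN N0 ε t := by
      have : 0 < 1 + ε * t := by positivity
      unfold NN; positivity
    rw [← hK, Real.log_mul hNN.ne' (by linarith), hlog t ht]
    have h9 := hlog1 t ht
    have hK0 : 0 < K := by linarith
    have hεt : 0 ≤ ε * t := by positivity
    have h10 : 4 * K * (Real.log N0 + Real.log B) ≤ ι * (t - 1) := by
      have : 4 * K * (Real.log N0 + Real.log B) / ι ≤ t - 1 := by linarith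
      rw [div_le_iff₀ hι] at this
      linarith
    constructor
    · have h11 : ε * K * (2 * Real.log (1 + ε * t)) ≤ ε * K * (2 * (ε * t)) :=
        mul_le_mul_of_nonneg_left (by linarith) (by positivity)
      have h12 : 2 * ε * K * (ε * t) ≤ ι / 4 * (ε * t) := mul_le_mul_of_nonneg_right e3 hεt
      have h13 : ε * (4 * K * (Real.log N0 + Real.log B)) ≤ ε * (ι * (t - 1)) :=
        mul_le_mul_of_nonneg_left h10 hε0.le
      have h14 := mul_pos hε0 hι
      have h15 : 0 ≤ ι * (ε * t) := by positivity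
      linarith
    · have h11 : K * (2 * Real.log (1 + ε * t)) ≤ K * (2 * (ε * t)) :=
        mul_le_mul_of_nonneg_left (by linarith) hK0.le
      have h12 : 4 * K * ε * t ≤ 1 * t := mul_le_mul_of_nonneg_right e2 ht
      have h14 : 0 < t := by linarith
      have h13 : ι * (t - 1) ≤ 1 / 20 * t := by
        have := mul_le_mul_of_nonneg_right hι' h14.le
        linarith
      linarith
  · -- os
    intro N B hN hB
    have hN1 : 1 ≤ N := by linarith
    have hN0' : 0 < N := by linarith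
    have hB0 : 0 < B := by linarith
    have hNB : 0 < N * B := by positivity
    have hNB1 : N ≤ N * B := le_mul_of_one_le_right hN0'.le hB
    have h9 : (N * B) ^ (-(2 * (a : ℝ) + 3)) = ((N * B) ^ (2 * a + 3))⁻¹ := by
      rw [Real.rpow_neg hNB.le]
      congr 1
      rw [← Real.rpow_natCast]; push_cast; rfl
    rw [h9]
    have h10 : ((N * B) ^ (2 * a + 3))⁻¹ * (N * B) = ((N * B) ^ (2 * a + 2))⁻¹ := by
      rw [show 2 * a + 3 = (2 * a + 2) + 1 by ring, pow_succ, mul_inv]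
      field_simp
    have h11 : ((N * B) ^ (2 * a + 2))⁻¹ ≤ (N ^ (2 * a + 2))⁻¹ :=
      inv_anti₀ (by positivity) (pow_le_pow_left₀ hN0'.le hNB1 _)
    have hNa : 1 ≤ N ^ a := one_le_pow₀ hN1
    have h12 : 2 * N ^ a + C6 ≤ (2 + C6) * N ^ a := by
      have := mul_le_mul_of_nonneg_left hNa (by linarith : (0:ℝ) ≤ C6)
      linarith
    calc ((N * B) ^ (2 * a + 3))⁻¹ * (2 * N ^ a + C6) * (8 * (N * B))
        = 8 * (((N * B) ^ (2 * a + 3))⁻¹ * (N * B)) * (2 * N ^ a + C6) := by ring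
      _ = 8 * ((N * B) ^ (2 * a + 2))⁻¹ * (2 * N ^ a + C6) := by rw [h10]
      _ ≤ 8 * (N ^ (2 * a + 2))⁻¹ * ((2 + C6) * N ^ a) := by
          refine mul_le_mul (mul_le_mul_of_nonneg_left h11 (by norm_num)) h12 ?_ (by positivity)
          positivity
      _ ≤ 1 / (100 * a * (4 * N) ^ a) := by
          rw [le_div_iff₀ (by positivity), mul_pow]
          have h13 : 800 * a * 4 ^ a * (2 + C6) ≤ N ^ 2 := by
            have : N ≤ N ^ 2 := by rw [sq]; exact le_mul_of_one_le_right hN0'.le hN1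
            linarith
          have h14 : 8 * (N ^ (2 * a + 2))⁻¹ * ((2 + C6) * N ^ a) * (100 * a * (4 ^ a * N ^ a)) =
              (800 * a * 4 ^ a * (2 + C6)) * (N ^ 2)⁻¹ := by
            rw [show 2 * a + 2 = a + a + 2 by ring, pow_add, pow_add]
            field_simp
            ring
          rw [h14]
          calc (800 * a * 4 ^ a * (2 + C6)) * (N ^ 2)⁻¹ ≤ N ^ 2 * (N ^ 2)⁻¹ :=
                mul_le_mul_of_nonneg_right h13 (by positivity)
            _ = 1 := mul_inv_cancel₀ (by positivity)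
  · -- small
    have h9 : N0 ^ (-(2 * (a : ℝ) + 3)) ≤ N0 ^ (-(1 : ℝ)) :=
      Real.rpow_le_rpow_of_exponent_le (by linarith) (by linarith)
    rw [Real.rpow_neg_one] at h9
    refine h9.trans ?_
    rw [one_div]
    exact inv_anti₀ (by norm_num) h1

end Pool.Agent.Helper78.TOT
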